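import Mathlib

open Pointwise

namespace Pool.Agent.Results.MP_bc764a_al.Semisparse

variable {G : Type} [Group G]

/-- the subgroup generated by the `ρ i` with `P i` -/
def gen {n : ℕ} (ρ : Fin n → G) (P : ℕ → Prop) : Subgroup G :=
  Subgroup.closure {x | ∃ i : Fin n, P i ∧ ρ i = x}

/-- the conjugate `φ⁻¹ S φ` -/
def cj (S : Subgroup G) (φ : G) : Subgroup G := S.comap (MulAut.conj φ).toMonoidHom

/-- `ρ` is the generating sequence of a string C-group structure on `G` -/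
def StringC {n : ℕ} (ρ : Fin n → G) : Prop :=
  gen ρ (fun _ => True) = ⊤ ∧ (∀ i, ρ i ≠ 1 ∧ ρ i ^ 2 = 1) ∧
  (∀ i j : Fin n, (i : ℕ) + 2 ≤ j → (ρ i * ρ j) ^ 2 = 1) ∧
  ∀ P Q : ℕ → Prop, gen ρ P ⊓ gen ρ Q = gen ρ fun i => P i ∧ Q i

/-- `S` is semisparse in the group generated by the sequence `ρ` -/
def Semisparse {n : ℕ} (ρ : Fin n → G) (S : Subgroup G) : Prop :=
  (∀ φ ∈ gen ρ (fun _ => True), ∀ i : Fin n,
    (cj S φ : Set G) ∩ ((gen ρ (· ≠ i) : Set G) * {ρ i}) = ∅) ∧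
  (∀ φ ∈ gen ρ (fun _ => True), ∀ i k j : Fin n, i < k → k < j →
    (gen ρ (· > i) : Set G) ∩ ((gen ρ (· < j) : Set G) * (cj S φ : Set G)) ⊆
      (gen ρ (· ≠ k) : Set G) * ((gen ρ (· > i) : Set G) ∩ (gen ρ (· < j) : Set G)) *
        (cj S φ : Set G)) ∧
  (∀ i : ℕ, i + 1 < n → (gen ρ (· > i) : Set G) ∩ ((gen ρ (· < i + 1) : Set G) * (S : Set G)) ⊆ S)

lemma mem_cj {S : Subgroup G} {φ x : G} : x ∈ cj S φ ↔ φ * x * φ⁻¹ ∈ S := Iff.rfl

lemma cj_cj (S : Subgroup G) (φ ψ : G) : cj (cj S φ) ψ = cj S (φ * ψ) := by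
  ext x; simp [mem_cj, mul_assoc]

lemma cj_one (S : Subgroup G) : cj S 1 = S := by ext x; simp [mem_cj]

lemma gen_mono {n : ℕ} (ρ : Fin n → G) {P Q : ℕ → Prop} (h : ∀ i < n, P i → Q i) :
    gen ρ P ≤ gen ρ Q :=
  Subgroup.closure_mono fun _ ⟨i, hi, e⟩ => ⟨i, h i i.2 hi, e⟩

lemma mem_gen {n : ℕ} (ρ : Fin n → G) {P : ℕ → Prop} {i : Fin n} (h : P i) : ρ i ∈ gen ρ P :=
  Subgroup.subset_closure ⟨i, h, rfl⟩

lemma gen_succ {n : ℕ} (ρ : Fin (n + 1) → G) (P : ℕ → Prop) :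
    gen (fun i : Fin n => ρ i.succ) P = gen ρ fun i => 1 ≤ i ∧ P (i - 1) := by
  unfold gen
  congr 1
  ext x
  constructor
  · rintro ⟨i, hi, rfl⟩
    exact ⟨i.succ, ⟨by simp, by simpa using hi⟩, rfl⟩
  · rintro ⟨i, ⟨h1, h2⟩, rfl⟩
    obtain ⟨j, rfl⟩ := Fin.exists_succ_eq.2 (show i ≠ 0 by rintro rfl; simp at h1)
    exact ⟨j, by simpa using h2, rfl⟩

lemma gen_cast {n : ℕ} (ρ : Fin (n + 1) → G) (P : ℕ → Prop) :
    gen (fun i : Fin n => ρ i.castSucc) P = gen ρ fun i => i < n ∧ P i := by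
  unfold gen
  congr 1
  ext x
  constructor
  · rintro ⟨i, hi, rfl⟩
    exact ⟨i.castSucc, ⟨by simp, by simpa using hi⟩, rfl⟩
  · rintro ⟨i, ⟨h1, h2⟩, rfl⟩
    exact ⟨⟨i, h1⟩, h2, rfl⟩

/-- elements of `Γ_k` split as `Γ_{>k} Γ_{<k}` -/
lemma split {n : ℕ} (ρ : Fin n → G) (h2 : ∀ i, ρ i ^ 2 = 1)
    (hc : ∀ i j : Fin n, (i : ℕ) + 2 ≤ j → (ρ i * ρ j) ^ 2 = 1) (k : ℕ) {x : G}
    (hx : x ∈ gen ρ (· ≠ k)) : ∃ a ∈ gen ρ (· > k), ∃ b ∈ gen ρ (· < k), x = a * b := by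
  have hcomm : ∀ a ∈ gen ρ (· > k), ∀ b ∈ gen ρ (· < k), b * a = a * b := by
    intro a ha b hb
    have h1 : gen ρ (· > k) ≤ Subgroup.centralizer (gen ρ (· < k)) := by
      unfold gen
      rw [Subgroup.closure_le, Subgroup.centralizer_closure]
      rintro _ ⟨j, hj, rfl⟩ _ ⟨i, hi, rfl⟩
      have e := hc i j (by omega)
      have ei := h2 i
      have ej := h2 j
      rw [pow_two] at e ei ej
      calc ρ i * ρ j = (ρ i * ρ j)⁻¹ := (inv_eq_of_mul_eq_one_right e).symm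
        _ = ρ j * ρ i := by
          rw [mul_inv_rev, inv_eq_of_mul_eq_one_right ei, inv_eq_of_mul_eq_one_right ej]
    exact h1 ha b hb
  induction hx using Subgroup.closure_induction with
  | mem x hx =>
    obtain ⟨i, hi, rfl⟩ := hx
    rcases lt_or_gt_of_ne hi with h | h
    · exact ⟨1, one_mem _, _, mem_gen ρ h, by simp⟩
    · exact ⟨_, mem_gen ρ h, 1, one_mem _, by simp⟩
  | one => exact ⟨1, one_mem _, 1, one_mem _, by simp⟩
  | mul x y _ _ ihx ihy =>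
    obtain ⟨a, ha, b, hb, rfl⟩ := ihx
    obtain ⟨a', ha', b', hb', rfl⟩ := ihy
    refine ⟨a * a', mul_mem ha ha', b * b', mul_mem hb hb', ?_⟩
    rw [mul_assoc, ← mul_assoc b, hcomm a' ha' b hb]; simp only [mul_assoc]
  | inv x _ ih =>
    obtain ⟨a, ha, b, hb, rfl⟩ := ih
    refine ⟨a⁻¹, inv_mem ha, b⁻¹, inv_mem hb, ?_⟩
    rw [mul_inv_rev, hcomm _ (inv_mem ha) _ (inv_mem hb)]

/-- path intersection property in terms of cosets `x T` -/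
def PIP (A B T : Subgroup G) : Prop :=
  ∀ x a b : G, a ∈ A → b ∈ B → (a * x)⁻¹ * (b * x) ∈ T → ∃ d ∈ A ⊓ B, (a * x)⁻¹ * (d * x) ∈ T

lemma pip_iff (A B T : Subgroup G) : PIP A B T ↔
    ∀ φ, (A : Set G) ∩ ((B : Set G) * (cj T φ : Set G)) ⊆ ((A : Set G) ∩ B) * (cj T φ : Set G) := by
  constructor
  · rintro h φ a ⟨ha, b, hb, s, hs, rfl⟩
    obtain ⟨d, hd, e⟩ := h φ⁻¹ _ b ha hb (by simpa [mem_cj, mul_assoc] using T.inv_mem hs)
    refine ⟨d, hd, d⁻¹ * (b * s), ?_, by simp⟩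
    simpa [mem_cj, mul_assoc] using T.inv_mem e
  · intro h x a b ha hb e
    obtain ⟨d, hd, s, hs, rfl⟩ := h x⁻¹ (a := a) ⟨ha, b, hb, b⁻¹ * a,
      by simpa [mem_cj, mul_assoc] using T.inv_mem e, by simp⟩
    exact ⟨d, hd, by simpa [mem_cj, mul_assoc] using T.inv_mem hs⟩

lemma pip_of_semi {n : ℕ} (ρ : Fin n → G) (h2 : ∀ i, ρ i ^ 2 = 1)
    (hc : ∀ i j : Fin n, (i : ℕ) + 2 ≤ j → (ρ i * ρ j) ^ 2 = 1) (T : Subgroup G)
    (h : ∀ φ, Semisparse ρ (cj T φ ⊓ gen ρ fun _ => True)) :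
    ∀ d i j : ℕ, j ≤ i + d → PIP (gen ρ (i ≤ ·)) (gen ρ (· < j)) T := by
  have top : ∀ P, gen ρ P ≤ gen ρ fun _ => True := fun P => gen_mono ρ fun _ _ _ => trivial
  have easy1 : ∀ j, PIP (gen ρ (0 ≤ ·)) (gen ρ (· < j)) T := fun j x a b _ hb e =>
    ⟨b, ⟨gen_mono ρ (fun _ _ _ => Nat.zero_le _) hb, hb⟩, e⟩
  have easy2 : ∀ i j, n ≤ j → PIP (gen ρ (i ≤ ·)) (gen ρ (· < j)) T := fun i j hj x a b ha _ _ =>
    ⟨a, ⟨ha, gen_mono ρ (fun _ h _ => h.trans_le hj) ha⟩, by simp⟩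
  intro d
  induction d with
  | zero =>
    intro i j hij
    rcases Nat.eq_zero_or_pos i with rfl | hi
    · exact easy1 j
    by_cases hn : n ≤ i
    · intro x a b ha _ _
      have : gen ρ (i ≤ ·) ≤ gen ρ (· < j) := gen_mono ρ fun _ h1 h2 => by omega
      exact ⟨a, ⟨ha, this ha⟩, by simp⟩
    rw [pip_iff]
    rintro φ a ⟨ha, b, hb, s, hs, rfl⟩
    have := @(h φ).2.2 (i - 1) (by omega) (b * s)
      ⟨gen_mono ρ (fun _ _ h => by first | omega | (simp only at h ⊢; omega)) ha, b,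
        gen_mono ρ (fun _ _ h => by first | omega | (simp only at h ⊢; omega)) hb, s,
        ⟨hs, by simpa using mul_mem (inv_mem (top _ hb)) (top _ ha)⟩, rfl⟩
    exact ⟨1, ⟨one_mem _, one_mem _⟩, _, this.1, by simp⟩
  | succ d ih =>
    intro i j hij
    by_cases hd : j ≤ i + d
    · exact ih i j hd
    rcases Nat.eq_zero_or_pos i with rfl | hi
    · exact easy1 j
    by_cases hn : n ≤ j
    · exact easy2 i j hn
    intro x a b ha hb e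
    obtain ⟨_, ⟨γ, hγ, δ, hδ, rfl⟩, s, hs, e2⟩ := @(h x⁻¹).2.1 1 (one_mem _) ⟨i - 1, by omega⟩
      ⟨i, by omega⟩ ⟨j, by omega⟩ (by simp [Fin.lt_def]; omega) (by simp [Fin.lt_def]; omega)
      a ⟨gen_mono ρ (fun _ _ h => by first | omega | (simp only at h ⊢; omega)) ha, b, hb, b⁻¹ * a, by
        rw [cj_one]
        exact ⟨by simpa [mem_cj, mul_assoc] using T.inv_mem e,
          Subgroup.mul_mem _ (Subgroup.inv_mem _ (top _ hb)) (top _ ha)⟩, by simp⟩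
    rw [cj_one] at hs
    have hs1 : x⁻¹ * s * x ∈ T := by simpa [mem_cj] using hs.1
    obtain ⟨α, hα, β, hβ, rfl⟩ := split ρ h2 hc i hγ
    have hδ1 : δ ∈ gen ρ (i ≤ ·) := gen_mono ρ (fun _ _ h => by first | omega | (simp only at h ⊢; omega)) hδ.1
    have hα1 : α ∈ gen ρ (i ≤ ·) := gen_mono ρ (fun _ _ h => by first | omega | (simp only at h ⊢; omega)) hα
    have hβ1 : β ∈ gen ρ (· < j) := gen_mono ρ (fun _ _ h => by first | omega | (simp only at h ⊢; omega)) hβ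
    simp only at e2
    obtain ⟨d1, hd1, f1⟩ := ih i i (by omega) (δ * x) (α⁻¹ * a * δ⁻¹) β
      (mul_mem (mul_mem (inv_mem hα1) ha) (inv_mem hδ1)) hβ (by
        rw [← e2]; simpa [mul_assoc] using T.inv_mem hs1)
    obtain ⟨d2, hd2, f2⟩ := ih (i + 1) j (by omega) (β * δ * x) α (b * δ⁻¹ * β⁻¹) hα
      (mul_mem (mul_mem hb (inv_mem hδ.2)) (inv_mem hβ1)) (by
        have := mul_mem hs1 e
        rw [← e2] at this
        simpa [mul_assoc] using this)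
    refine ⟨d2 * d1 * δ, ⟨mul_mem (mul_mem (gen_mono ρ (fun _ _ h => by omega) hd2.1) hd1.1) hδ1,
      mul_mem (mul_mem hd2.2 (gen_mono ρ (fun _ _ h => by omega) hd1.2)) hδ.2⟩, ?_⟩
    have := mul_mem (mul_mem (T.inv_mem hs1) f2) (mul_mem hs1 f1)
    rw [← e2] at this ⊢
    simpa [mul_assoc] using this

theorem result (m : ℕ) (hm : 1 ≤ m) (ρ : Fin (m + 1) → G) (hρ : StringC ρ) (S : Subgroup G)
    (h0 : ∀ φ, Semisparse (fun i : Fin m => ρ i.succ) (cj S φ ⊓ gen ρ (· ≠ 0)))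
    (h1 : ∀ φ, Semisparse (fun i : Fin m => ρ i.castSucc) (cj S φ ⊓ gen ρ (· ≠ m)))
    (h2 : ∀ φ, (cj S φ : Set G) ∩ ((gen ρ (· ≠ 0) : Set G) * (gen ρ (· ≠ m) : Set G)) =
      ((cj S φ : Set G) ∩ gen ρ (· ≠ 0)) * ((cj S φ : Set G) ∩ gen ρ (· ≠ m))) :
    Semisparse ρ S := by
  obtain ⟨-, hinv, hc, hip⟩ := hρ
  have geq : ∀ P Q : ℕ → Prop, (∀ i < m + 1, P i ↔ Q i) → gen ρ P = gen ρ Q := fun P Q h =>
    le_antisymm (gen_mono ρ fun i hi => (h i hi).1) (gen_mono ρ fun i hi => (h i hi).2)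
  have e0 : gen (fun i : Fin m => ρ i.succ) (fun _ => True) = gen ρ (· ≠ 0) := by
    rw [gen_succ]; exact geq _ _ fun i _ => by simp only [and_true]; omega
  have e1 : gen (fun i : Fin m => ρ i.castSucc) (fun _ => True) = gen ρ (· ≠ m) := by
    rw [gen_cast]; exact geq _ _ fun i _ => by simp only [and_true]; omega
  have p0 := pip_of_semi (fun i : Fin m => ρ i.succ) (fun i => (hinv _).2)
    (fun i j h => hc _ _ (by simp; omega)) S (by rw [e0]; exact h0)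
  have p1 := pip_of_semi (fun i : Fin m => ρ i.castSucc) (fun i => (hinv _).2)
    (fun i j h => hc _ _ (by simpa using h)) S (by rw [e1]; exact h1)
  simp only [gen_succ, gen_cast] at p0 p1
  have p2 : PIP (gen ρ (· ≠ 0)) (gen ρ (· ≠ m)) S := by
    intro x a b ha hb e
    have : a⁻¹ * b ∈ (cj S x⁻¹ : Set G) ∩
        ((gen ρ (· ≠ 0) : Set G) * (gen ρ (· ≠ m) : Set G)) :=
      ⟨by simpa [mem_cj, mul_assoc] using e, a⁻¹, inv_mem ha, b, hb, rfl⟩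
    rw [h2] at this
    obtain ⟨s, ⟨hs1, hs2⟩, t, ⟨-, ht2⟩, e2⟩ := this
    simp only at e2
    refine ⟨a * s, ⟨mul_mem ha hs2, ?_⟩, by simpa [mem_cj, mul_assoc] using hs1⟩
    have : a * s = b * t⁻¹ := by
      rw [eq_mul_inv_iff_mul_eq, mul_assoc, e2]; simp
    rw [this]
    exact Subgroup.mul_mem _ hb (Subgroup.inv_mem _ ht2)
  have P : ∀ i j : ℕ, PIP (gen ρ (i ≤ ·)) (gen ρ (· < j)) S := by
    intro i j x a b ha hb e
    by_cases hi : i = 0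
    · exact ⟨b, ⟨gen_mono ρ (fun _ _ _ => by omega) hb, hb⟩, e⟩
    by_cases hj : m < j
    · exact ⟨a, ⟨ha, gen_mono ρ (fun _ _ _ => by omega) ha⟩, by simp⟩
    obtain ⟨d, hd, f⟩ := p2 x a b (gen_mono ρ (fun _ _ _ => by omega) ha)
      (gen_mono ρ (fun _ _ _ => by omega) hb) e
    rw [hip] at hd
    obtain ⟨d', hd', f'⟩ := p1 j 1 j (by omega) x d b (gen_mono ρ (fun _ _ _ => by omega) hd)
      (gen_mono ρ (fun _ _ _ => by omega) hb)
      (by simpa [mul_assoc] using mul_mem (S.inv_mem f) e)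
    rw [hip] at hd'
    obtain ⟨d'', hd'', f''⟩ := p0 j (i - 1) (j - 1) (by omega) x a d'
      (gen_mono ρ (fun _ _ _ => by omega) ha) (gen_mono ρ (fun _ _ _ => by omega) hd')
      (by simpa [mul_assoc] using mul_mem f f')
    exact ⟨d'', ⟨gen_mono ρ (fun _ _ _ => by omega) hd''.1,
      gen_mono ρ (fun _ _ _ => by omega) hd''.2⟩, f''⟩
  have bot : ∀ i : ℕ, gen ρ (i ≤ ·) ⊓ gen ρ (· < i) = ⊥ := by
    intro i
    rw [hip, gen, Subgroup.closure_eq_bot_iff]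
    rintro _ ⟨k, hk, -⟩
    omega
  have P0 : ∀ (i : ℕ) (x a b : G), a ∈ gen ρ (i ≤ ·) → b ∈ gen ρ (· < i) →
      (a * x)⁻¹ * (b * x) ∈ S → (a * x)⁻¹ * x ∈ S := by
    intro i x a b ha hb e
    obtain ⟨d, hd, f⟩ := P i i x a b ha hb e
    rw [bot, Subgroup.mem_bot] at hd
    simpa [hd] using f
  have nofix : ∀ φ i, ρ i ∉ cj S φ := by
    intro φ i hi
    by_cases h : (i : ℕ) = m
    · obtain ⟨k, rfl⟩ := Fin.exists_succ_eq.2 (show i ≠ 0 by rintro rfl; simp at h; omega)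
      refine Set.eq_empty_iff_forall_notMem.1 ((h0 φ).1 1 (one_mem _) k) (ρ k.succ) ⟨?_, 1,
        one_mem _, _, rfl, by simp⟩
      rw [cj_one]
      exact ⟨hi, mem_gen ρ (by simp)⟩
    · have hlt : (i : ℕ) < m := by omega
      refine Set.eq_empty_iff_forall_notMem.1 ((h1 φ).1 1 (one_mem _) ⟨i, hlt⟩) (ρ i) ⟨?_, 1,
        one_mem _, _, rfl, by simp⟩
      rw [cj_one]
      exact ⟨hi, mem_gen ρ h⟩
  refine ⟨fun φ _ i => ?_, fun φ _ i k j _ _ a ha => ?_, fun i _ a ha => ?_⟩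
  · rw [Set.eq_empty_iff_forall_notMem]
    rintro _ ⟨hs, γ, hγ, _, rfl, rfl⟩
    obtain ⟨α, hα, β, hβ, rfl⟩ := split ρ (fun i => (hinv i).2) hc i hγ
    have hs' : φ * (α * β * ρ i) * φ⁻¹ ∈ S := hs
    have k1 := P0 (i + 1) φ⁻¹ α⁻¹ (β * ρ i) (inv_mem hα)
      (mul_mem (gen_mono ρ (fun _ _ _ => by omega) hβ) (mem_gen ρ (by omega)))
      (by simpa [mul_assoc] using hs')
    have k2 : φ * (β * ρ i) * φ⁻¹ ∈ S := by
      simpa [mul_assoc] using mul_mem (S.inv_mem k1) hs'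
    have k3 := P0 i φ⁻¹ (ρ i) β⁻¹ (mem_gen ρ le_rfl) (inv_mem hβ)
      (by simpa [mul_assoc] using S.inv_mem k2)
    exact nofix φ i (by simpa [mem_cj, mul_assoc] using S.inv_mem k3)
  · obtain ⟨d, hd, s, hs, rfl⟩ := (pip_iff _ _ _).1 (P (i + 1) j) φ ha
    exact ⟨d, ⟨1, one_mem _, d, hd, by simp⟩, s, hs, rfl⟩
  · obtain ⟨h1, b, hb, s, hs, rfl⟩ := ha
    have := P0 (i + 1) 1 (b * s) b h1 hb (by simpa using S.inv_mem hs)
    simpa using S.inv_mem this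

end Pool.Agent.Results.MP_bc764a_al.Semisparse
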